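import Pool.Agent.Helper51.LT.St

set_option autoImplicit false

namespace Pool.Agent.Helper78.LT

open Complex MeasureTheory Set Metric Filter Topology
open scoped Real ENNReal
open Pool.Agent.Helper51.LT

private theorem deriv_bound {g : ℂ → ℂ} (hg : BU g) {z : ℂ} {r : ℝ} (hz : ‖z‖ = r) (hr : r < 1) :
    ‖deriv g z‖ ≤ 1 / (1 - r) := by
  have h1 : 0 < 1 - r := by linarith
  have key : ∀ R : ℝ, 0 < R → R < 1 - r → ‖deriv g z‖ * R ≤ 1 := by
    intro R hR hR1
    have hsub : closedBall z R ⊆ ball (0 : ℂ) 1 := by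
      intro w hw
      rw [mem_closedBall, dist_eq_norm] at hw
      rw [mem_ball_zero_iff]
      calc ‖w‖ = ‖(w - z) + z‖ := by congr 1; ring
        _ ≤ ‖w - z‖ + ‖z‖ := norm_add_le _ _
        _ < 1 := by rw [hz]; linarith
    have hd : DiffContOnCl ℂ g (ball z R) := by
      apply DifferentiableOn.diffContOnCl
      apply hg.1.1.mono
      rw [closure_ball z hR.ne']
      exact hsub
    have h2 := Complex.norm_deriv_le_of_forall_mem_sphere_norm_le hR hd
      (fun w hw => hg.2 w (hsub (sphere_subset_closedBall hw)))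
    rwa [le_div_iff₀ hR] at h2
  by_contra hcon
  push Not at hcon
  rw [div_lt_iff₀ h1] at hcon
  set d := ‖deriv g z‖ with hd
  have hd0 : 0 < d := by
    by_contra h
    push Not at h
    nlinarith
  have h3 : 1 / d < 1 - r := by
    rw [div_lt_iff₀ hd0]
    linarith
  have h4 : 0 < 1 / d := by positivity
  have h5 := key ((1 / d + (1 - r)) / 2) (by linarith) (by linarith)
  have h6 : d * ((1 / d + (1 - r)) / 2) = (1 + d * (1 - r)) / 2 := by
    field_simp
  rw [h6] at h5
  linarith

theorem hImb : StImb := by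
  intro g r hg hr0 hr1
  have h1 : 0 < 1 - r := by linarith
  have h2 : ‖IM g r‖ ≤ 1 / (1 - r) * |2 * π - 0| := by
    unfold IM
    apply intervalIntegral.norm_integral_le_of_norm_le_const
    intro t _
    rw [norm_norm]
    apply deriv_bound hg _ hr1
    rw [norm_circleMap_zero, abs_of_pos hr0]
  have h3 : |2 * π - 0| = 2 * π := by
    rw [sub_zero, abs_of_pos (by positivity)]
  rw [h3] at h2
  calc IM g r ≤ ‖IM g r‖ := Real.le_norm_self _
    _ ≤ 1 / (1 - r) * (2 * π) := h2
    _ = 2 * π / (1 - r) := by ring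

end Pool.Agent.Helper78.LT
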